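import Pool.Agent.K1H95.ParkTree.Ana
import Pool.Agent.TH996.Rec.All

set_option autoImplicit false

/-!
The parking process on the Cayley graph of the free group with two free generators `a, b` (the
4-regular tree) with the kernel `K(u, u a) = K(u, u b) = 1/2`: at density `p < 1/2` the expected
number of visits is at most `2 p + log ((1 - p) / (1 - 2 p))`. Hence it is not of the order
`(1/2 - p)^(-γ)` for any `γ > 0`, and the answer to Q2 is negative.
-/

namespace Pool.Agent.Results.MP_971c94_pr.LogDivergence

open Pool.Agent.TH996.Parking Pool.Agent.TH996 Pool.Agent.TH996.Park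
open Pool.Agent.K1H95.ParkTree
open MeasureTheory Measure Finset

/-- The free group with two free generators. -/
abbrev F2 : Type := FreeGroup Bool

/-- Its Cayley graph, the 4-regular tree. -/
def tree : SimpleGraph F2 where
  Adj u v := u ≠ v ∧ ∃ i : Bool, v = u * FreeGroup.of i ∨ u = v * FreeGroup.of i
  symm := ⟨by
    rintro u v ⟨h, i, hi⟩
    exact ⟨h.symm, i, hi.symm⟩⟩
  loopless := ⟨fun u h => h.1 rfl⟩

open Classical in
/-- From `u` the walk moves to `u a` or `u b`, with probability `1/2` each. -/
noncomputable def kern (u v : F2) : ℝ := if ∃ i : Bool, v = u * FreeGroup.of i then 1 / 2 else 0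

/-- The group of the left translations. -/
def transl : Subgroup (Equiv.Perm F2) := (MulAction.toPermHom F2 F2).range

/-- the exponent sum -/
def lev : F2 →* Multiplicative ℤ := FreeGroup.lift fun _ => Multiplicative.ofAdd 1

lemma lev_of (i : Bool) : lev (FreeGroup.of i) = Multiplicative.ofAdd 1 := by
  simp [lev]

lemma of_ne_one (i : Bool) : (FreeGroup.of i : F2) ≠ 1 := by
  intro h
  have := congrArg lev h
  rw [lev_of, map_one lev] at this
  exact absurd this (by decide)

lemma adj_iff (u v : F2) : tree.Adj u v ↔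
    ∃ i : Bool, v = u * FreeGroup.of i ∨ u = v * FreeGroup.of i := by
  constructor
  · exact fun h => h.2
  · rintro ⟨i, hi⟩
    refine ⟨?_, i, hi⟩
    rintro rfl
    rcases hi with hi | hi
    · exact of_ne_one i (mul_left_cancel (a := u) (by rw [← hi, mul_one]))
    · exact of_ne_one i (mul_left_cancel (a := u) (by rw [← hi, mul_one]))

/-- the neighbours -/
def nbF (u : F2) : Finset F2 :=
  {u * FreeGroup.of true, u * FreeGroup.of false, u * (FreeGroup.of true)⁻¹,
    u * (FreeGroup.of false)⁻¹}

lemma mem_nbF (u v : F2) : v ∈ nbF u ↔ tree.Adj u v := by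
  rw [adj_iff]
  simp only [nbF, Finset.mem_insert, Finset.mem_singleton]
  constructor
  · rintro (h | h | h | h)
    · exact ⟨true, Or.inl h⟩
    · exact ⟨false, Or.inl h⟩
    · exact ⟨true, Or.inr (by rw [h]; group)⟩
    · exact ⟨false, Or.inr (by rw [h]; group)⟩
  · rintro ⟨i, h | h⟩
    · cases i
      · exact Or.inr (Or.inl h)
      · exact Or.inl h
    · cases i
      · exact Or.inr (Or.inr (Or.inr (by rw [h]; group)))
      · exact Or.inr (Or.inr (Or.inl (by rw [h]; group)))

instance : tree.LocallyFinite := fun u =>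
  Fintype.ofFinset (nbF u) fun v => by rw [mem_nbF]; rfl

instance : MeasurableSpace F2 := ⊤

instance : DiscreteMeasurableSpace F2 := ⟨fun _ => trivial⟩

lemma kern_of (u : F2) (i : Bool) : kern u (u * FreeGroup.of i) = 1 / 2 := by
  unfold kern
  rw [if_pos ⟨i, rfl⟩]

lemma isKernel : IsKernel tree kern where
  nonneg u v := by
    unfold kern
    split_ifs <;> norm_num
  supp u v h := by
    unfold kern
    rw [if_neg]
    rintro ⟨i, hi⟩
    exact h ((adj_iff u v).2 ⟨i, Or.inl hi⟩)
  sum_one u := by
    have hne : u * FreeGroup.of true ≠ u * FreeGroup.of false := by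
      intro h
      have := FreeGroup.of_injective (mul_left_cancel h)
      exact absurd this (by decide)
    have hsub : ({u * FreeGroup.of true, u * FreeGroup.of false} : Finset F2) ⊆
        tree.neighborFinset u := by
      intro v hv
      rw [SimpleGraph.mem_neighborFinset, adj_iff]
      simp only [Finset.mem_insert, Finset.mem_singleton] at hv
      rcases hv with h | h
      · exact ⟨true, Or.inl h⟩
      · exact ⟨false, Or.inl h⟩
    rw [← sum_subset hsub]
    · rw [sum_pair hne, kern_of, kern_of]
      norm_num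
    · intro v _ hv
      unfold kern
      rw [if_neg]
      rintro ⟨i, hi⟩
      apply hv
      simp only [Finset.mem_insert, Finset.mem_singleton]
      cases i
      · exact Or.inr hi
      · exact Or.inl hi

lemma mem_transl (φ : Equiv.Perm F2) : φ ∈ transl ↔ ∃ g : F2, ∀ u, φ u = g * u := by
  constructor
  · rintro ⟨g, rfl⟩
    exact ⟨g, fun u => rfl⟩
  · rintro ⟨g, hg⟩
    exact ⟨g, by ext u; rw [hg]; rfl⟩

lemma isAut : IsAut tree kern transl where
  adj := by
    intro φ hφ u v
    obtain ⟨g, hg⟩ := (mem_transl φ).1 hφ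
    rw [hg, hg, adj_iff, adj_iff]
    simp only [mul_assoc, mul_right_inj]
  ker := by
    intro φ hφ u v
    obtain ⟨g, hg⟩ := (mem_transl φ).1 hφ
    unfold kern
    rw [hg, hg]
    simp only [mul_assoc, mul_right_inj]

lemma isTransitive : IsTransitive transl := by
  intro u v
  refine ⟨MulAction.toPermHom F2 F2 (v * u⁻¹), ⟨_, rfl⟩, ?_⟩
  change v * u⁻¹ * u = v
  group

lemma stab_eq (u v : F2) : stabOrbit transl u v = {v} := by
  ext w
  simp only [stabOrbit, Set.mem_singleton_iff]
  constructor
  · rintro ⟨φ, hφ, h1, h2⟩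
    obtain ⟨g, hg⟩ := (mem_transl φ).1 hφ
    rw [hg] at h1 h2
    have : g = 1 := by simpa using h1
    rw [this, one_mul] at h2
    exact h2.symm
  · rintro rfl
    exact ⟨1, Subgroup.one_mem _, rfl, rfl⟩

lemma isUnimodular : IsUnimodular transl := by
  intro u v
  rw [stab_eq, stab_eq]
  simp

lemma isInfinitelyAccessible : IsInfinitelyAccessible tree kern transl := by
  refine ⟨MulAction.toPermHom F2 F2 (FreeGroup.of true)⁻¹, ⟨_, rfl⟩, 1, ?_, ?_⟩
  · apply Set.infinite_range_of_injective
    intro m n h
    have e : ∀ n : ℕ, ((MulAction.toPermHom F2 F2 (FreeGroup.of true)⁻¹) ^ n) (1 : F2) =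
        (FreeGroup.of true)⁻¹ ^ n := by
      intro n
      rw [← map_pow]
      change (FreeGroup.of true)⁻¹ ^ n * 1 = _
      rw [mul_one]
    simp only [e] at h
    have h2 := congrArg lev h
    rw [map_pow, map_pow, map_inv, lev_of] at h2
    have h3 := congrArg Multiplicative.toAdd h2
    simpa using h3
  · refine Relation.ReflTransGen.single ⟨?_, ?_⟩
    · rw [adj_iff]
      refine ⟨true, Or.inl ?_⟩
      change (1 : F2) = (FreeGroup.of true)⁻¹ * 1 * FreeGroup.of true
      group
    · have : kern ((MulAction.toPermHom F2 F2 (FreeGroup.of true)⁻¹) 1) 1 = 1 / 2 := by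
        unfold kern
        rw [if_pos]
        refine ⟨true, ?_⟩
        change (1 : F2) = (FreeGroup.of true)⁻¹ * 1 * FreeGroup.of true
        group
      rw [this]
      norm_num

lemma reach (g : F2) : ∀ u : F2, tree.Reachable u (u * g) := by
  induction g using FreeGroup.induction_on with
  | C1 => intro u; rw [mul_one]
  | of i =>
    intro u
    exact SimpleGraph.Adj.reachable ((adj_iff _ _).2 ⟨i, Or.inl rfl⟩)
  | inv_of i _ =>
    intro u
    exact SimpleGraph.Adj.reachable ((adj_iff _ _).2 ⟨i, Or.inr (by group)⟩)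
  | mul g h hg hh =>
    intro u
    rw [← mul_assoc]
    exact (hg u).trans (hh _)

lemma connected : tree.Connected := by
  refine { preconnected := fun u v => ?_, nonempty := ⟨1⟩ }
  have := reach (u⁻¹ * v) u
  rwa [mul_inv_cancel_left] at this

/-! ### Ancestries -/

/-- the words in the inverses of the generators -/
def negm : Submonoid F2 := Submonoid.closure {(FreeGroup.of true)⁻¹, (FreeGroup.of false)⁻¹}

/-- the shift of the affine map of a generator -/
def sft (i : Bool) : ℚ := if i then 0 else 1

/-- the affine maps used to separate the ancestries -/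
def aff (i : Bool) : Equiv.Perm ℚ where
  toFun x := 2 * x - sft i
  invFun x := (x + sft i) / 2
  left_inv x := by ring
  right_inv x := by ring

/-- the action -/
def act : F2 →* Equiv.Perm ℚ := FreeGroup.lift aff

lemma act_inv (i : Bool) (x : ℚ) : act (FreeGroup.of i)⁻¹ x = (x + sft i) / 2 := by
  rw [map_inv]
  unfold act
  rw [FreeGroup.lift_apply_of]
  rfl

lemma of_inv_mem (i : Bool) : (FreeGroup.of i)⁻¹ ∈ negm := by
  apply Submonoid.subset_closure
  cases i
  · right; rfl
  · left; rfl

lemma act_range {w : F2} (hw : w ∈ negm) : ∀ x : ℚ, 0 ≤ x → x < 1 → 0 ≤ act w x ∧ act w x < 1 := by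
  unfold negm at hw
  induction hw using Submonoid.closure_induction with
  | mem w hw =>
    intro x h0 h1
    rcases hw with rfl | hw
    · rw [act_inv]
      simp only [sft]
      constructor <;> simp <;> linarith
    · rw [Set.mem_singleton_iff] at hw
      subst hw
      rw [act_inv]
      simp only [sft]
      constructor
      · simp; linarith
      · simp; linarith
  | one => intro x h0 h1; simpa using ⟨h0, h1⟩
  | mul w w' _ _ h h' =>
    intro x h0 h1
    rw [map_mul, Equiv.Perm.mul_apply]
    obtain ⟨e0, e1⟩ := h' x h0 h1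
    exact h _ e0 e1

lemma lev_neg {w : F2} (hw : w ∈ negm) : Multiplicative.toAdd (lev w) ≤ 0 := by
  unfold negm at hw
  induction hw using Submonoid.closure_induction with
  | mem w hw =>
    have : ∀ i : Bool, Multiplicative.toAdd (lev (FreeGroup.of i)⁻¹) ≤ 0 := by
      intro i
      rw [map_inv, lev_of]
      simp
    rcases hw with rfl | hw
    · exact this true
    · rw [Set.mem_singleton_iff] at hw
      subst hw
      exact this false
  | one => simp
  | mul w w' _ _ h h' =>
    rw [map_mul, toAdd_mul]
    linarith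

/-- the ancestry of `x` -/
def anc (x : F2) : Set F2 := {y | ∃ w ∈ negm, y = x * w}

/-- the in-neighbours of `x` -/
def inn (x : F2) : Finset F2 := {x * (FreeGroup.of true)⁻¹, x * (FreeGroup.of false)⁻¹}

lemma mem_inn {x y : F2} : y ∈ inn x ↔ ∃ i : Bool, y = x * (FreeGroup.of i)⁻¹ := by
  simp only [inn, Finset.mem_insert, Finset.mem_singleton]
  constructor
  · rintro (h | h)
    · exact ⟨true, h⟩
    · exact ⟨false, h⟩
  · rintro ⟨i, h⟩
    cases i
    · exact Or.inr h
    · exact Or.inl h

lemma mem_inn' {x y : F2} : y ∈ inn x ↔ ∃ i : Bool, x = y * FreeGroup.of i := by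
  rw [mem_inn]
  refine exists_congr fun i => ?_
  constructor
  · intro h; rw [h]; group
  · intro h; rw [h]; group

/-- the directed structure -/
noncomputable def dir : Dir (mkTri tree kern transl isKernel isAut isTransitive isUnimodular) where
  inn := inn
  anc := anc
  inn_sub := by
    intro x y hy
    rw [mem_inn'] at hy
    obtain ⟨i, hi⟩ := hy
    change y ∈ tree.neighborFinset x
    rw [SimpleGraph.mem_neighborFinset, adj_iff]
    exact ⟨i, Or.inr hi⟩
  K_off := by
    intro x y _ hy
    change kern y x = 0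
    unfold kern
    rw [if_neg]
    intro h
    exact hy (mem_inn'.2 h)
  K_on := by
    intro x y hy
    change kern y x = 1 / 2
    unfold kern
    rw [if_pos (mem_inn'.1 hy)]
  card := by
    intro x
    unfold inn
    apply Finset.card_pair
    intro h
    have h1 := inv_injective (mul_left_cancel h)
    have := FreeGroup.of_injective h1
    exact absurd this (by decide)
  self := fun x => ⟨1, negm.one_mem, (mul_one x).symm⟩
  closed := by
    rintro x z ⟨w, hw, rfl⟩ y hy
    obtain ⟨i, rfl⟩ := mem_inn.1 hy
    exact ⟨w * (FreeGroup.of i)⁻¹, negm.mul_mem hw (of_inv_mem i), by rw [mul_assoc]⟩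
  noself := by
    rintro x y hy ⟨w, hw, h⟩
    obtain ⟨i, rfl⟩ := mem_inn.1 hy
    have h1 : (FreeGroup.of i)⁻¹ * w = 1 := by
      have : x * ((FreeGroup.of i)⁻¹ * w) = x * 1 := by rw [← mul_assoc, ← h, mul_one]
      exact mul_left_cancel this
    have h2 := congrArg lev h1
    rw [map_mul, map_inv, lev_of, map_one lev] at h2
    have h3 := congrArg Multiplicative.toAdd h2
    rw [toAdd_mul, toAdd_inv, toAdd_ofAdd, toAdd_one] at h3
    have h4 := lev_neg hw
    linarith
  disj := by
    intro x y hy z hz hne
    obtain ⟨i, rfl⟩ := mem_inn.1 hy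
    obtain ⟨j, rfl⟩ := mem_inn.1 hz
    rw [Set.disjoint_left]
    rintro v ⟨w, hw, h1⟩ ⟨w', hw', h2⟩
    have hij : i ≠ j := by rintro rfl; exact hne rfl
    rw [h1, mul_assoc, mul_assoc] at h2
    have h3 := mul_left_cancel h2
    have h4 := congrArg (fun g => act g 0) h3
    simp only [map_mul, Equiv.Perm.mul_apply, act_inv] at h4
    obtain ⟨a0, a1⟩ := act_range hw 0 le_rfl zero_lt_one
    obtain ⟨b0, b1⟩ := act_range hw' 0 le_rfl zero_lt_one
    cases i <;> cases j
    · exact hij rfl
    · simp only [sft] at h4
      simp at h4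
      linarith
    · simp only [sft] at h4
      simp at h4
      linarith
    · exact hij rfl

/-- the bound for the expected number of visits -/
theorem visits_le (p : ℝ) (hp0 : 0 ≤ p) (hp1 : p < 1 / 2) (x : F2) :
    expectedVisits tree kern p x ≤
      ENNReal.ofReal (2 * p + Real.log ((1 - p) / (1 - 2 * p))) := by
  have : Countable F2 := countable_of_connected tree connected
  have hp : 0 ≤ p ∧ p ≤ 1 := ⟨hp0, by linarith⟩
  exact expectedVisits_le tree kern transl isKernel isAut isTransitive isUnimodular hp x _
    fun T => mT_bound dir hp hp1 T x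

/-- The limit which shows that no power law with a positive constant holds. -/
theorem limit_zero (x : F2) (γ : ℝ) (hγ : 0 < γ) :
    Filter.Tendsto (fun p : ℝ => (expectedVisits tree kern p x).toReal * (1 / 2 - p) ^ γ)
      (nhdsWithin (1 / 2) (Set.Iio (1 / 2))) (nhds 0) := by
  -- comparison with `(1 + log (1 / (1 - 2 p))) (1 / 2 - p) ^ γ`
  have h1 : Filter.Tendsto (fun y : ℝ => Real.log y * y ^ γ) (nhdsWithin 0 (Set.Ioi 0))
      (nhds 0) := tendsto_log_mul_rpow_nhdsGT_zero hγ
  have h2 : Filter.Tendsto (fun y : ℝ => y ^ γ) (nhdsWithin 0 (Set.Ioi 0)) (nhds 0) := by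
    have h3 : ContinuousAt (fun y : ℝ => y ^ γ) 0 :=
      Real.continuousAt_rpow_const 0 γ (Or.inr hγ.le)
    have h4 := h3.tendsto
    rw [Real.zero_rpow hγ.ne'] at h4
    exact h4.mono_left nhdsWithin_le_nhds
  have h5 : Filter.Tendsto (fun y : ℝ => y ^ γ - Real.log y * y ^ γ)
      (nhdsWithin 0 (Set.Ioi 0)) (nhds 0) := by
    simpa using h2.sub h1
  have h6 : Filter.Tendsto (fun p : ℝ => 1 / 2 - p) (nhdsWithin (1 / 2) (Set.Iio (1 / 2)))
      (nhdsWithin 0 (Set.Ioi 0)) := by
    rw [tendsto_nhdsWithin_iff]
    constructor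
    · have : Filter.Tendsto (fun p : ℝ => 1 / 2 - p) (nhds (1 / 2)) (nhds (1 / 2 - 1 / 2)) :=
        tendsto_const_nhds.sub Filter.tendsto_id
      rw [sub_self] at this
      exact this.mono_left nhdsWithin_le_nhds
    · filter_upwards [self_mem_nhdsWithin] with p hp
      have : p < 1 / 2 := hp
      change 0 < 1 / 2 - p
      linarith
  have h7 := h5.comp h6
  have hev : ∀ᶠ p : ℝ in nhdsWithin (1 / 2) (Set.Iio (1 / 2)), 0 ≤ p ∧ p < 1 / 2 := by
    have ha : ∀ᶠ p : ℝ in nhdsWithin (1 / 2) (Set.Iio (1 / 2)), (0 : ℝ) < p :=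
      (eventually_gt_nhds (by norm_num)).filter_mono nhdsWithin_le_nhds
    filter_upwards [ha, self_mem_nhdsWithin] with p h h'
    exact ⟨h.le, h'⟩
  refine squeeze_zero' ?_ ?_ h7
  · filter_upwards [hev] with p hp
    exact mul_nonneg ENNReal.toReal_nonneg (Real.rpow_nonneg (by linarith [hp.2]) _)
  · filter_upwards [hev] with p hp
    obtain ⟨hp0, hp1⟩ := hp
    have hb := visits_le p hp0 hp1 x
    have hy : 0 < 1 / 2 - p := by linarith
    have hlog : Real.log ((1 - p) / (1 - 2 * p)) ≤ -Real.log (1 / 2 - p) + 0 := by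
      have e1 : (1 - p) / (1 - 2 * p) ≤ (1 / 2 - p)⁻¹ := by
        rw [div_le_iff₀ (by linarith), inv_mul_eq_div, le_div_iff₀ hy]
        nlinarith
      have := Real.log_le_log (div_pos (by linarith) (by linarith)) e1
      rw [Real.log_inv] at this
      linarith
    have hlog0 : 0 ≤ Real.log ((1 - p) / (1 - 2 * p)) := by
      apply Real.log_nonneg
      rw [le_div_iff₀ (by linarith)]
      linarith
    have h8 : (expectedVisits tree kern p x).toReal ≤ 1 - Real.log (1 / 2 - p) := by
      have h9 := ENNReal.toReal_mono ENNReal.ofReal_ne_top hb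
      rw [ENNReal.toReal_ofReal (by linarith)] at h9
      linarith
    calc (expectedVisits tree kern p x).toReal * (1 / 2 - p) ^ γ
        ≤ (1 - Real.log (1 / 2 - p)) * (1 / 2 - p) ^ γ :=
          mul_le_mul_of_nonneg_right h8 (Real.rpow_nonneg hy.le _)
      _ = _ := by simp only [Function.comp]; ring

/-- **Theorem (negative answer to Q2).** On the 4-regular tree, the Cayley graph of the free group
with the generators `a, b`, with the kernel `K(u, u a) = K(u, u b) = 1 / 2` and the group of the
left translations (a transitive, unimodular, infinitely accessible triple), the expected number of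
visits at density `p < 1 / 2` is at most `2 p + log ((1 - p) / (1 - 2 p))`, so that its product with
`(1 / 2 - p) ^ γ` tends to zero as `p` tends to `1 / 2` from below, for every `γ > 0`. Hence it is
not true that for every transitive, unimodular, infinitely accessible triple there are `γ > 0` and
`C > 0` such that this product tends to `C`. -/
theorem result :
    (tree.Connected ∧ IsKernel tree kern ∧ IsAut tree kern transl ∧ IsTransitive transl ∧
      IsUnimodular transl ∧ IsInfinitelyAccessible tree kern transl ∧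
      (∀ p : ℝ, 0 ≤ p → p < 1 / 2 → ∀ x : F2, expectedVisits tree kern p x ≤
        ENNReal.ofReal (2 * p + Real.log ((1 - p) / (1 - 2 * p)))) ∧
      (∀ x : F2, ∀ γ : ℝ, 0 < γ →
        Filter.Tendsto (fun p : ℝ => (expectedVisits tree kern p x).toReal * (1 / 2 - p) ^ γ)
          (nhdsWithin (1 / 2) (Set.Iio (1 / 2))) (nhds 0))) ∧
    ¬ (∀ (V : Type) [MeasurableSpace V] [DiscreteMeasurableSpace V] (G : SimpleGraph V)
        [G.LocallyFinite] (K : V → V → ℝ) (Γ : Subgroup (Equiv.Perm V)),
        G.Connected → IsKernel G K → IsAut G K Γ → IsTransitive Γ → IsUnimodular Γ →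
        IsInfinitelyAccessible G K Γ →
        ∃ γ : ℝ, 0 < γ ∧ ∃ C : ℝ, 0 < C ∧ ∀ x : V,
          Filter.Tendsto (fun p : ℝ => (expectedVisits G K p x).toReal * (1 / 2 - p) ^ γ)
            (nhdsWithin (1 / 2) (Set.Iio (1 / 2))) (nhds C)) := by
  refine ⟨⟨connected, isKernel, isAut, isTransitive, isUnimodular, isInfinitelyAccessible,
    fun p h0 h1 x => visits_le p h0 h1 x, fun x γ hγ => limit_zero x γ hγ⟩, ?_⟩
  intro h
  obtain ⟨γ, hγ, C, hC, hlim⟩ := h F2 tree kern transl connected isKernel isAut isTransitive
    isUnimodular isInfinitelyAccessible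
  have h0 := limit_zero 1 γ hγ
  have := tendsto_nhds_unique (hlim 1) h0
  exact hC.ne' this

end Pool.Agent.Results.MP_971c94_pr.LogDivergence
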